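import Pool.Agent.H.MP_eb6644.B

set_option autoImplicit false
open Set Filter Topology TopologicalSpace

namespace Pool.Agent.H.MP_e33218

open Pool.Agent.H.MP_d2b9e5 (Om Om1 Om2)
open Pool.Agent.H.MP_28dc43 (bdd)
open Pool.Agent.H.MP_eb6644

variable {X Γ K : Type} [TopologicalSpace X] [CompactSpace X] [LinearOrder K] [TopologicalSpace K]
  [OrderTopology K] {h : X → Γ → ℝ} {π : X → K}

theorem cg {p : K} (h1 : LC p) (h2 : LC (K := Kᵒᵈ) p) : (𝓝 p).IsCountablyGenerated := by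
  obtain ⟨s, s1, s2, s3⟩ := h1
  obtain ⟨t, t1, t2, t3⟩ := h2
  have := s1.to_subtype
  have := t1.to_subtype
  have e : 𝓝 p = (⨅ c : s, 𝓟 (Ioi c.1)) ⊓ ⨅ c : t, 𝓟 (Iio (show K from c.1)) := by
    refine le_antisymm (le_inf (le_iInf fun c => le_principal_iff.2 (Ioi_mem_nhds (s2 _ c.2)))
      (le_iInf fun c => le_principal_iff.2 (Iio_mem_nhds (t2 _ c.2)))) ?_
    rw [nhds_eq_order]
    refine inf_le_inf (le_iInf₂ fun b hb => ?_) (le_iInf₂ fun b hb => ?_)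
    · obtain ⟨c, c1, c2⟩ := s3 b hb
      exact iInf_le_of_le ⟨c, c1⟩ (principal_mono.2 (Ioi_subset_Ioi c2))
    · obtain ⟨c, c1, c2⟩ := t3 b hb
      exact iInf_le_of_le ⟨c, c1⟩ (principal_mono.2 (Iio_subset_Iio c2))
  rw [e]
  infer_instance

theorem chain2 (hc : Continuous h) (hi : Function.Injective h)
    (hd : Dense {p | {θ | h p θ ≠ 0}.Countable}) (hπ : Continuous π) (hs : Function.Surjective π) :
    ∃ S : Om → Set Γ, (∀ ξ, (S ξ).Countable) ∧ Monotone S ∧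
      ∀ x, {θ | h x θ ≠ 0}.Countable → ∃ ξ, π x ∈ π '' Y h (S ξ) := by
  obtain ⟨S, R, N, S1, S2, R1, g1, g2, g3⟩ := chain hc hi hd hπ hs
  refine ⟨S, S1, S2, fun x hx => ?_⟩
  obtain ⟨ξ0, -⟩ := bdd countable_empty
  have : Nonempty Om := ⟨ξ0⟩
  choose! k hk using fun θ (e : ∃ ζ, θ ∈ S ζ) => e
  obtain ⟨ξ, hξ⟩ := bdd (hx.image k)
  have ag : ∀ ζ, ∀ θ ∈ S ζ, h (R ξ x) θ = h x θ := fun ζ θ hθ => by
    by_cases e : θ ∈ S ξ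
    · exact (R1 ξ x).1 θ e
    · rw [(R1 ξ x).2 θ e]
      by_contra hn
      exact e (S2 (hξ _ ⟨θ, Ne.symm hn, rfl⟩).le (hk θ ⟨ζ, hθ⟩))
  refine ⟨ξ, _, (R1 ξ x).2, le_antisymm (not_lt.1 fun e => ?_) (not_lt.1 fun e => ?_)⟩
  · obtain ⟨u, hu, v, hv, e1, e2, e3⟩ := g3 ξ _ (R1 ξ x).2 _ e
    obtain ⟨ζ, hζ⟩ := g1 u hu v hv e2
    exact absurd (hζ _ _ (fun θ hθ => (ag ζ θ hθ).symm) e1) (not_lt.2 e3)
  · obtain ⟨u, hu, v, hv, e1, e2, e3⟩ := g2 ξ _ (R1 ξ x).2 _ e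
    obtain ⟨ζ, hζ⟩ := g1 u hu v hv e2
    exact absurd (hζ _ _ (ag ζ) e1) (not_lt.2 e3)

theorem cod (hc : Continuous h) (T : Set Γ) : ∃ C : Set (Set X), C.Countable ∧ (T.Countable →
    ∀ A B, IsCompact A → IsCompact B → (∀ x ∈ A, ∀ y ∈ B, ¬ ∀ θ ∈ T, h x θ = h y θ) →
      ∃ W ∈ C, A ⊆ W ∧ ∀ y ∈ B, y ∉ W) := by
  by_cases hT : T.Countable
  swap
  · exact ⟨∅, countable_empty, fun h => absurd h hT⟩
  have := hT.to_subtype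
  let φ : X → T → ℝ := fun x => T.domRestrict (h x)
  have c : Continuous φ := (Pi.continuous_domRestrict _).comp hc
  refine ⟨(fun s => φ ⁻¹' ⋃₀ s) '' {s | s.Finite ∧ s ⊆ countableBasis (T → ℝ)},
    (countable_ofPred_finite_subset (countable_countableBasis _)).image _, fun _ A B hA hB hAB => ?_⟩
  choose! b b1 b2 b3 using fun x (hx : x ∈ A) => (isBasis_countableBasis (T → ℝ)
    ).exists_subset_of_mem_open (a := φ x) (u := (φ '' B)ᶜ) (by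
      rintro ⟨y, hy, e⟩
      exact hAB x hx y hy fun θ hθ => (congrFun e ⟨θ, hθ⟩).symm) (hB.image c).isClosed.isOpen_compl
  obtain ⟨t, t1, t2⟩ := hA.elim_nhds_subcover (fun x => φ ⁻¹' b x) fun x hx =>
    ((isOpen_of_mem_countableBasis (b1 x hx)).preimage c).mem_nhds (b2 x hx)
  refine ⟨_, ⟨b '' t, ⟨t.finite_toSet.image _, ?_⟩, rfl⟩, fun x hx => ?_, ?_⟩
  · rintro _ ⟨x, hx, rfl⟩; exact b1 x (t1 x hx)
  · obtain ⟨y, y1, y2⟩ := mem_iUnion₂.1 (t2 hx)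
    exact ⟨_, ⟨y, y1, rfl⟩, y2⟩
  · rintro y hy ⟨_, ⟨x, hx, rfl⟩, e⟩
    exact b3 x (t1 x hx) e ⟨y, hy, rfl⟩

def LL (V : Set K) (a : K) : Prop := (∃ w, w < a) ∧ ∀ w < a, ∃ u ∈ V, w < u ∧ u < a

def VV {Z : Type} (N : Om → Set Z) (δ : Om) : Set Z := ⋃ ζ ∈ Iio δ, N ζ

theorem VVm {Z : Type} (N : Om → Set Z) : Monotone (VV N) := fun _ _ e =>
  biUnion_subset_biUnion_left (Iio_subset_Iio e)

theorem VVs {Z : Type} {N : Om → Set Z} {ζ δ : Om} (e : ζ < δ) : N ζ ⊆ VV N δ :=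
  subset_biUnion_of_mem (u := N) e

theorem VV2 {Z : Type} {N : Om → Set Z} (hN : Monotone N) {δ : Om} {u v : Z} (hu : u ∈ VV N δ)
    (hv : v ∈ VV N δ) : ∃ ζ < δ, u ∈ N ζ ∧ v ∈ N ζ := by
  obtain ⟨a, a1, a2⟩ := mem_iUnion₂.1 hu
  obtain ⟨b, b1, b2⟩ := mem_iUnion₂.1 hv
  exact ⟨max a b, max_lt a1 b1, hN (le_max_left _ _) a2, hN (le_max_right _ _) b2⟩

theorem lim1 {V C : Set K} (hC : IsClosed C) {a : K} (ha : LL V a)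
    (hV : ∀ u ∈ V, ∀ v ∈ V, (Ioo u v).Nonempty → (C ∩ Ioo u v).Nonempty) : a ∈ C := by
  have key : ∀ w < a, ∃ c ∈ C ∩ Iic a, w < c := fun w hw => by
    obtain ⟨u1, a1, b1, c1⟩ := ha.2 w hw
    obtain ⟨u2, -, b2, c2⟩ := ha.2 u1 c1
    obtain ⟨u3, a3, b3, c3⟩ := ha.2 u2 c2
    obtain ⟨c, e1, e2⟩ := hV u1 a1 u3 a3 ⟨u2, b2, b3⟩
    exact ⟨c, ⟨e1, (e2.2.trans c3).le⟩, b1.trans e2.1⟩
  obtain ⟨w, hw⟩ := ha.1
  obtain ⟨c, hc, -⟩ := key w hw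
  refine (IsLUB.mem_of_isClosed (s := C ∩ Iic a) ⟨fun x hx => hx.2, fun x hx => not_lt.1 fun e => ?_⟩
    ⟨c, hc⟩ (hC.inter isClosed_Iic)).1
  obtain ⟨c, c1, c2⟩ := key x e
  exact absurd (hx c1) (not_le.2 c2)

theorem T1 [CompactSpace K] (hc : Continuous h) (hi : Function.Injective h)
    (hd : Dense {p | {θ | h p θ ≠ 0}.Countable}) (hπ : Continuous π) (hs : Function.Surjective π) :
    ∃ (N : Om → Set K) (β : Om → Om), (∀ ζ, (N ζ).Countable) ∧ Monotone N ∧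
      (∀ p q, p < q → ∃ ζ, ∃ u ∈ N ζ, ∃ v ∈ N ζ, p ≤ u ∧ u < v ∧ v ≤ q) ∧
      (∀ p : K, ¬ LC p ∨ ¬ LC (K := Kᵒᵈ) p → ∃ ζ, p ∈ N ζ) ∧
      (∀ ζ c, IsTop c ∨ IsBot c → c ∈ N ζ) ∧
      ∀ δ, (∀ ζ < δ, β ζ < δ) → ∀ a b, a < b → (∀ u ∈ VV N δ, a ≤ u → b < u) →
        LL (VV N δ) a → LL (K := Kᵒᵈ) (VV N δ) b → False := by
  obtain ⟨S, S1, S2, sig⟩ := chain2 hc hi hd hπ hs
  choose JR R1 R2 using nY hc hi hπ
  choose JL L1 L2 using nY (K := Kᵒᵈ) hc hi hπ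
  choose C C1 C2 using cod hc
  have Ym : ∀ {A B : Set Γ}, A ⊆ B → Y h A ⊆ Y h B := fun e x hx θ hθ => hx θ fun h => hθ (e h)
  have Cc : ∀ T, IsClosed (π '' Y h T) := fun T => ((Yc hc T).isCompact.image hπ).isClosed
  let U : Set K := {p : K | ¬ LC p} ∪ (show Set K from {p : Kᵒᵈ | ¬ LC p})
  obtain ⟨j⟩ : Nonempty (U ↪ Om) := Cardinal.le_def _ _ |>.1 (by
    rw [Cardinal.mk_ord_toType]
    exact (Cardinal.mk_union_le _ _).trans (Cardinal.add_le_of_le (Cardinal.aleph0_le_aleph 1)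
      (main hc hi hd hπ hs) (main (K := Kᵒᵈ) hc hi hd hπ hs)))
  have cov : ∀ p ∉ U, ∃ ξ, p ∈ π '' Y h (S ξ) := by
    intro p hp
    have := cg (not_not.1 fun e => hp (Or.inl e)) (not_not.1 fun e => hp (Or.inr e))
    have : (𝓝 p ⊓ 𝓟 (π '' {p | {θ | h p θ ≠ 0}.Countable})).NeBot :=
      mem_closure_iff_clusterPt.1 (hs.denseRange.dense_image hπ hd p)
    obtain ⟨y, hy⟩ := exists_seq_tendsto (𝓝 p ⊓ 𝓟 (π '' {p | {θ | h p θ ≠ 0}.Countable}))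
    obtain ⟨ξ0, -⟩ := bdd countable_empty
    have : Nonempty Om := ⟨ξ0⟩
    choose! k hk using fun q (e : ∃ ξ, q ∈ π '' Y h (S ξ)) => e
    obtain ⟨ξ, hξ⟩ := bdd ((countable_range y).image k)
    refine ⟨ξ, (Cc _).mem_of_tendsto (tendsto_inf.1 hy).1
      ((tendsto_principal.1 (tendsto_inf.1 hy).2).mono fun n hn => ?_)⟩
    obtain ⟨x, x1, x2⟩ := hn
    exact image_mono (Ym (S2 (hξ _ ⟨_, ⟨n, rfl⟩, rfl⟩).le)) (hk _ (x2 ▸ sig x x1))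
  have Ic : ∀ ζ : Om, (Iic ζ).Countable := fun ζ => Iio_insert (a := ζ) ▸ (Om2 ζ).insert ζ
  let N : Om → Set K := fun ζ => (⋃ ξ ∈ Iic ζ, JR (S ξ) ∪ (show Set K from JL (S ξ))) ∪
    ((↑) '' (j ⁻¹' Iic ζ) ∪ ({c | IsTop c} ∪ {c | IsBot c}))
  have N1 : ∀ ζ, (N ζ).Countable := fun ζ => ((Ic ζ).biUnion fun ξ _ => (R1 _).union (L1 _)).union
    ((((Ic ζ).preimage j.injective).image _).union
      ((subsingleton_isTop K).countable.union (subsingleton_isBot K).countable))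
  have N2 : Monotone N := fun a b e => union_subset_union
    (biUnion_subset_biUnion_left (Iic_subset_Iic.2 e))
    (union_subset_union_left _ (image_mono (preimage_mono (Iic_subset_Iic.2 e))))
  have N3 : ∀ p ∈ U, ∃ ζ, p ∈ N ζ := fun p hp =>
    ⟨j ⟨p, hp⟩, Or.inr (Or.inl ⟨⟨p, hp⟩, le_refl (j _), rfl⟩)⟩
  have N4 : ∀ p, ∃ ξ, (∀ q, p < q → ∃ u ∈ N ξ, p ≤ u ∧ u < q) ∧
      ∀ q, q < p → ∃ u ∈ N ξ, q < u ∧ u ≤ p := fun p => by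
    by_cases hp : p ∈ U
    · obtain ⟨ξ, hξ⟩ := N3 p hp
      exact ⟨ξ, fun q hq => ⟨p, hξ, le_rfl, hq⟩, fun q hq => ⟨p, hξ, hq, le_rfl⟩⟩
    · obtain ⟨ξ, z, z1, rfl⟩ := cov p hp
      refine ⟨ξ, fun q hq => ?_, fun q hq => ?_⟩
      · obtain ⟨u, u1, u2⟩ := R2 _ (S1 ξ) z z1 q hq
        exact ⟨u, Or.inl (mem_iUnion₂.2 ⟨ξ, le_refl ξ, Or.inl u1⟩), u2⟩
      · obtain ⟨u, u1, u2⟩ := L2 _ (S1 ξ) z z1 q hq
        exact ⟨u, Or.inl (mem_iUnion₂.2 ⟨ξ, le_refl ξ, Or.inr u1⟩), u2.2, u2.1⟩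
  let G : Set X → Om → K → K → Prop := fun W δ a b => a < b ∧ (∀ u ∈ VV N δ, a ≤ u → b < u) ∧
    LL (VV N δ) a ∧ LL (K := Kᵒᵈ) (VV N δ) b ∧ a ∈ π '' Y h (VV S δ) ∧ b ∈ π '' Y h (VV S δ) ∧
    (∀ y ∈ Y h (VV S δ), π y ≤ a → y ∈ W) ∧ ∀ y ∈ Y h (VV S δ), b ≤ π y → y ∉ W
  have nest : ∀ W δ a b δ' a' b', G W δ a b → G W δ' a' b' → δ ≤ δ' → Icc a' b' ⊆ Icc a b := by
    rintro W δ _ _ δ' a' b' ⟨-, -, h3, h4, ⟨y, y1, rfl⟩, ⟨z, z1, rfl⟩, h7, h8⟩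
      ⟨-, k2, -, -, -, -, k7, k8⟩ e
    refine Icc_subset_Icc (not_lt.1 fun e1 => ?_) (not_lt.1 fun e1 => ?_)
    · obtain ⟨u, u1, u2, u3⟩ := h3.2 a' e1
      exact k8 y (Ym (VVm S e) y1) ((k2 u (VVm N e u1) u2.le).trans u3).le (h7 y y1 le_rfl)
    · obtain ⟨u, u1, u2, u3⟩ := h4.2 b' e1
      refine h8 z z1 le_rfl (k7 z (Ym (VVm S e) z1) (le_trans (le_of_lt u3) (not_lt.1 fun e2 => ?_)))
      exact lt_asymm (k2 u (VVm N e u1) (le_of_lt e2)) u2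
  have bnd : ∀ W, ∃ β, ∀ δ, β < δ → ∀ a b, ¬ G W δ a b := by
    intro W
    by_contra hn
    push Not at hn
    choose δ d1 a b d2 using hn
    obtain ⟨ξ0, -⟩ := bdd countable_empty
    have : Nonempty Om := ⟨ξ0⟩
    obtain ⟨p, hp⟩ := IsCompact.nonempty_iInter_of_directed_nonempty_isCompact_isClosed
      (fun β => Icc (a β) (b β)) (fun x y => (le_total (δ x) (δ y)).elim
        (fun e => ⟨y, nest _ _ _ _ _ _ _ (d2 x) (d2 y) e, Subset.rfl⟩)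
        fun e => ⟨x, Subset.rfl, nest _ _ _ _ _ _ _ (d2 y) (d2 x) e⟩)
      (fun β => nonempty_Icc.2 (d2 β).1.le) (fun β => isClosed_Icc.isCompact) fun β => isClosed_Icc
    obtain ⟨ξ, e1, e2⟩ := N4 p
    have e3 := mem_iInter.1 hp ξ
    rcases e3.1.eq_or_lt with e | e
    · obtain ⟨u, u1, u2, u3⟩ := e1 _ (e ▸ (d2 ξ).1)
      exact lt_asymm ((d2 ξ).2.1 u (VVs (d1 ξ) u1) (e3.1.trans u2)) u3
    · obtain ⟨u, u1, u2, u3⟩ := e2 _ e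
      exact absurd ((d2 ξ).2.1 u (VVs (d1 ξ) u1) u2.le) (not_lt.2 (u3.trans e3.2))
  choose bn hb using bnd
  have kap : ∀ u v : K, ∃ ξ, (Ioo u v).Nonempty → (π '' Y h (S ξ) ∩ Ioo u v).Nonempty := by
    intro u v
    by_cases e : (Ioo u v).Nonempty
    · obtain ⟨w, hw⟩ := e
      obtain ⟨x, rfl⟩ := hs w
      obtain ⟨y, y1, y2⟩ := hd.exists_mem_open (isOpen_Ioo.preimage hπ) (U := π ⁻¹' Ioo u v) ⟨x, hw⟩
      obtain ⟨ξ, hξ⟩ := sig y y1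
      exact ⟨ξ, fun _ => ⟨_, hξ, y2⟩⟩
    · exact ⟨(bdd countable_empty).choose, fun h => absurd h e⟩
  choose κ hκ using kap
  choose β hβ using fun ζ => bdd (((C1 (S ζ)).image bn).union ((N1 ζ).image2 (N1 ζ) κ))
  refine ⟨N, β, N1, N2, fun p q hpq => ?_, N3, fun ζ c hc => Or.inr (Or.inr hc),
    fun δ hδ a b h1 h2 h3 h4 => ?_⟩
  · obtain ⟨ξ, e1, -⟩ := N4 p
    obtain ⟨η, -, e2⟩ := N4 q
    obtain ⟨u, u1, u2, u3⟩ := e1 q hpq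
    obtain ⟨v, v1, v2, v3⟩ := e2 u u3
    exact ⟨max ξ η, u, N2 (le_max_left _ _) u1, v, N2 (le_max_right _ _) v1, u2, v2, v3⟩
  have hV : ∀ u ∈ VV N δ, ∀ v ∈ VV N δ, (Ioo u v).Nonempty →
      (π '' Y h (VV S δ) ∩ Ioo u v).Nonempty := fun u hu v hv e => by
    obtain ⟨ζ, z1, z2, z3⟩ := VV2 N2 hu hv
    exact (hκ u v e).mono (inter_subset_inter_left _ (image_mono (Ym (VVs
      ((hβ ζ _ (Or.inr ⟨u, z2, v, z3, rfl⟩)).trans (hδ ζ z1))))))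
  have ha := lim1 (Cc _) h3 hV
  have hb' := lim1 (K := Kᵒᵈ) (C := π '' Y h (VV S δ)) (Cc _) h4 fun u hu v hv ⟨w, hw⟩ => by
    obtain ⟨c, c1, c2⟩ := hV v hv u hu ⟨w, hw.2, hw.1⟩
    exact ⟨c, c1, c2.2, c2.1⟩
  have cA : IsCompact (Y h (VV S δ) ∩ {y | π y ≤ a}) :=
    ((Yc hc _).inter (isClosed_le hπ continuous_const)).isCompact
  have cB : IsCompact (Y h (VV S δ) ∩ {y | b ≤ π y}) :=
    ((Yc hc _).inter (isClosed_le continuous_const hπ)).isCompact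
  have : Nonempty (Iio δ) := by
    obtain ⟨w, hw⟩ := h3.1
    obtain ⟨u, hu, -⟩ := h3.2 w hw
    obtain ⟨ζ, hζ, -⟩ := mem_iUnion₂.1 hu
    exact ⟨⟨ζ, hζ⟩⟩
  obtain ⟨ζ, hζ⟩ := (cA.prod cB).elim_directed_family_closed
    (fun ζ : Iio δ => {p : X × X | ∀ θ ∈ S ζ, h p.1 θ = h p.2 θ}) (fun ζ => by
      simp only [ofPred_forall]
      exact isClosed_iInter fun i => isClosed_iInter fun _ => isClosed_eq (by fun_prop) (by fun_prop))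
    (eq_empty_of_forall_notMem fun p hp => by
      have e : p.1 = p.2 := hi (funext fun θ => by
        by_cases e : θ ∈ VV S δ
        · obtain ⟨ζ, z1, z2⟩ := mem_iUnion₂.1 e
          exact mem_iInter.1 hp.2 ⟨ζ, z1⟩ θ z2
        · rw [hp.1.1.1 θ e, hp.1.2.1 θ e])
      exact absurd (le_trans hp.1.2.2 (e ▸ hp.1.1.2)) (not_le.2 h1))
    fun x y => ⟨max x y, fun p hp θ hθ => hp θ (S2 (le_max_left x y) hθ),
      fun p hp θ hθ => hp θ (S2 (le_max_right x y) hθ)⟩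
  obtain ⟨W, W1, W2, W3⟩ := C2 _ (S1 ζ) _ _ cA cB fun x hx y hy e =>
    eq_empty_iff_forall_notMem.1 hζ (x, y) ⟨⟨hx, hy⟩, e⟩
  exact hb W δ ((hβ ζ _ (Or.inl ⟨W, W1, rfl⟩)).trans (hδ ζ ζ.2)) a b
    ⟨h1, h2, h3, h4, ha, hb', fun y y1 y2 => W2 ⟨y1, y2⟩, fun y y1 y2 => W3 y ⟨y1, y2⟩⟩

end Pool.Agent.H.MP_e33218
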