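import Pool.Agent.H.MP_e33218.A

set_option autoImplicit false
open Set Filter Topology TopologicalSpace

namespace Pool.Agent.H.MP_e33218

open Pool.Agent.H.MP_d2b9e5 (Om Om1 Om2)
open Pool.Agent.H.MP_28dc43 (bdd)
open Pool.Agent.H.MP_eb6644

variable {L : Type} [LinearOrder L] [TopologicalSpace L] [OrderTopology L] [CompactSpace L]

instance cd : CompactSpace Lᵒᵈ := inferInstanceAs (CompactSpace L)

theorem lub [Nonempty L] (s : Set L) : ∃ p, IsLUB s p := by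
  rcases s.eq_empty_or_nonempty with rfl | hs
  · obtain ⟨p, hp⟩ := (isCompact_univ (X := L)).exists_isLeast univ_nonempty
    exact ⟨p, by simp, fun x _ => hp.2 (mem_univ x)⟩
  · obtain ⟨p, -, hp⟩ := (isClosed_closure (s := s)).isCompact.exists_isLUB hs.closure
    exact ⟨p, by rwa [IsLUB, upperBounds_closure] at hp⟩

theorem olub {s : Set Om} (h : (upperBounds s).Nonempty) : ∃ δ, IsLUB s δ := by
  obtain ⟨a, a1, a2⟩ := (wellFounded_lt (α := Om)).has_min _ h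
  exact ⟨a, a1, fun x hx => not_lt.1 (a2 x hx)⟩

def Sep (V : Set L) (p q : L) : Prop := ∃ u ∈ V, ∃ v ∈ V, p ≤ u ∧ u < v ∧ v ≤ q

omit [TopologicalSpace L] [OrderTopology L] [CompactSpace L] in
theorem sd {V : Set L} {p q : L} : Sep (L := Lᵒᵈ) V q p ↔ Sep V p q :=
  ⟨fun ⟨u, a, v, b, c, d, e⟩ => ⟨v, b, u, a, e, d, c⟩,
    fun ⟨u, a, v, b, c, d, e⟩ => ⟨v, b, u, a, e, d, c⟩⟩

omit [TopologicalSpace L] [OrderTopology L] [CompactSpace L] in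
theorem sm {V V' : Set L} {p q p' q' : L} (h : Sep V p q) (h1 : V ⊆ V') (h2 : p' ≤ p)
    (h3 : q ≤ q') : Sep V' p' q' :=
  let ⟨u, a, v, b, c, d, e⟩ := h
  ⟨u, h1 a, v, h1 b, h2.trans c, d, e.trans h3⟩

omit [TopologicalSpace L] [OrderTopology L] [CompactSpace L] in
theorem eta {W : Om → Set L} (W2 : Monotone W) (sp : ∀ p q, p < q → ∃ ζ, Sep (W ζ) p q) (x : L) :
    ∃ η, LC x → ∀ w < x, Sep (W η) w x := by
  obtain ⟨ξ0, -⟩ := bdd countable_empty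
  have : Nonempty Om := ⟨ξ0⟩
  by_cases h : LC x
  · obtain ⟨s, s1, s2, s3⟩ := h
    choose! k hk using fun c (hc : c < x) => sp c x hc
    obtain ⟨η, hη⟩ := bdd (s1.image k)
    refine ⟨η, fun _ w hw => ?_⟩
    obtain ⟨c, c1, c2⟩ := s3 w hw
    exact sm (hk c (s2 c c1)) (W2 (hη _ ⟨c, c1, rfl⟩).le) c2 le_rfl
  · exact ⟨ξ0, fun e => absurd e h⟩

theorem one {W : Om → Set L} {D : Set Om} (W1 : ∀ δ, (W δ).Countable) (W2 : Monotone W)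
    (hD : ∀ ξ, ∃ δ ∈ D, ξ < δ) (sp : ∀ p q, p < q → ∃ ζ, Sep (W ζ) p q) :
    ∃ φ : L → L × L × L → ℝ, Continuous φ ∧ (∀ x, LC x → {θ | φ x θ ≠ 0}.Countable) ∧
      ∀ x y ε u v b, x ≤ u → u < v → v ≤ y → y ≤ b → IsOpen (Iic b) → u ∈ W ε → v ∈ W ε →
        b ∈ W ε → (∀ δ ∈ D, δ < ε → ¬ Sep (W δ) x b) → φ x ≠ φ y := by
  classical
  have ex : ∀ u v : L, ∃ f : C(L, ℝ), u < v → (∀ t ≤ u, f t = 0) ∧ ∀ t, v ≤ t → f t = 1 := by
    intro u v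
    by_cases e : u < v
    · obtain ⟨f, f1, f2, -⟩ := exists_continuous_zero_one_of_isClosed (isClosed_Iic (a := u))
        (isClosed_Ici (a := v)) (disjoint_left.2 fun t h1 h2 =>
          absurd (le_trans h2 h1) (not_le.2 e))
      exact ⟨f, fun _ => ⟨fun t h => f1 h, fun t h => f2 h⟩⟩
    · exact ⟨0, fun h => absurd h e⟩
  choose f hf using ex
  let c : L × L × L → Prop := fun θ => θ.1 < θ.2.1 ∧ IsOpen (Iic θ.2.2) ∧
    ∃ ε, θ ∈ W ε ×ˢ W ε ×ˢ W ε ∧ ∀ δ ∈ D, δ < ε → ¬ Sep (W δ) θ.1 θ.2.2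
  refine ⟨fun x θ => if c θ then (Iic θ.2.2).indicator (f θ.1 θ.2.1) x else 0,
    continuous_pi fun θ => ?_, fun x hx => ?_, fun x y ε u v b h1 h2 h3 h4 h5 h6 h7 h8 h9 e => ?_⟩
  · split_ifs with e
    · exact IsClopen.continuous_indicator ⟨isClosed_Iic, e.2.1⟩ (f _ _).continuous
    · exact continuous_const
  · obtain ⟨η, hη⟩ := eta W2 sp x
    obtain ⟨δ, d1, d2⟩ := hD η
    refine ((W1 δ).prod ((W1 δ).prod (W1 δ))).mono fun θ hθ => ?_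
    have e1 : c θ := by
      by_contra hn
      exact hθ (if_neg hn)
    have e2 : (Iic θ.2.2).indicator (f θ.1 θ.2.1) x ≠ 0 := fun e => hθ ((if_pos e1).trans e)
    have e3 : x ≤ θ.2.2 := mem_of_indicator_ne_zero (s := Iic θ.2.2) e2
    have e4 : θ.1 < x := not_le.1 fun e => e2 ((indicator_of_mem (s := Iic θ.2.2) e3 _).trans
      ((hf _ _ e1.1).1 x e))
    obtain ⟨ε, a1, a2⟩ := e1.2.2
    have e5 : W ε ⊆ W δ := W2 (not_lt.1 fun e => a2 δ d1 e (sm (hη hx _ e4) (W2 d2.le) le_rfl e3))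
    exact ⟨e5 a1.1, e5 a1.2.1, e5 a1.2.2⟩
  · have e1 : c (u, v, b) := ⟨h2, h5, ε, ⟨h6, h7, h8⟩, fun δ a1 a2 a3 =>
      h9 δ a1 a2 (sm a3 Subset.rfl h1 le_rfl)⟩
    have e2 := congrFun e (u, v, b)
    simp only [if_pos e1] at e2
    rw [indicator_of_mem (s := Iic b) h4, indicator_of_mem (s := Iic b)
      (h1.trans (h2.le.trans (h3.trans h4))), (hf u v h2).1 x h1, (hf u v h2).2 y h3] at e2
    exact zero_ne_one e2

theorem iso {c : L} (h : IsOpen (Ici c)) : LC c := by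
  rcases (Iio c).eq_empty_or_nonempty with e | e
  · exact ⟨∅, countable_empty, by simp, fun b hb => absurd hb (eq_empty_iff_forall_notMem.1 e b)⟩
  · have : IsClosed (Iio c) := by rw [← compl_Ici]; exact h.isClosed_compl
    obtain ⟨m, hm⟩ := this.isCompact.exists_isGreatest e
    exact ⟨{m}, countable_singleton _, fun _ e => e ▸ hm.1, fun b hb => ⟨m, rfl, hm.2 hb⟩⟩

theorem side {V : Set L} (h1 : ∀ c ∈ V, LC c → ∀ w < c, ∃ u ∈ V, w ≤ u ∧ u < c)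
    (h2 : ∀ c ∈ V, LC (K := Lᵒᵈ) c → ∀ w, c < w → ∃ u ∈ V, u ≤ w ∧ c < u)
    (h3 : ∀ u ∈ V, ∀ v ∈ V, ∀ w, u < w → w < v → ∃ t ∈ V, u < t ∧ t < v)
    (h4 : ∀ c : L, ¬ LC c → IsOpen (Iic c)) {x y : L} (hxy : ¬ Sep V x y) :
    ∃ b, y ≤ b ∧ ¬ Sep V x b ∧ ((IsOpen (Iic b) ∧ (b ∈ V ∨ IsTop b)) ∨
      (LL (K := Lᵒᵈ) V b ∧ ∀ c ∈ V, x < c → b < c)) := by
  have : Nonempty L := ⟨x⟩
  obtain ⟨b, hb⟩ := lub {w | ¬ Sep V x w}
  have b1 : ¬ Sep V x b := by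
    rintro ⟨u, a1, v, a2, a3, a4, a5⟩
    obtain ⟨w, w1, w2⟩ := (lt_isLUB_iff hb).1 (a4.trans_le a5)
    obtain ⟨t, t1, t2, t3⟩ := h3 u a1 v a2 w w2 (not_le.1 fun e => w1 ⟨u, a1, v, a2, a3, a4, e⟩)
    obtain ⟨w, w1, w2⟩ := (lt_isLUB_iff hb).1 (t3.trans_le a5)
    exact w1 ⟨u, a1, t, t1, a3, t2, w2.le⟩
  have b2 : ∀ w, b < w → ∃ v ∈ V, b < v ∧ v ≤ w := fun w hw => by
    obtain ⟨u, a1, v, a2, a3, a4, a5⟩ : Sep V x w := by
      by_contra hn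
      exact absurd (hb.1 hn) (not_le.2 hw)
    exact ⟨v, a2, not_le.1 fun e => b1 ⟨u, a1, v, a2, a3, a4, e⟩, a5⟩
  refine ⟨b, hb.1 hxy, b1, ?_⟩
  by_cases ho : IsOpen (Iic b)
  · refine Or.inl ⟨ho, or_iff_not_imp_right.2 fun ht => ?_⟩
    have : IsClosed (Ioi b) := by rw [← compl_Iic]; exact ho.isClosed_compl
    obtain ⟨m, hm⟩ := this.isCompact.exists_isLeast (by
      by_contra hn
      exact ht fun w => not_lt.1 fun e => hn ⟨w, e⟩)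
    obtain ⟨v, v1, v2, v3⟩ := b2 m hm.1
    obtain ⟨u, u1, u2, u3⟩ := h1 v v1 ⟨{b}, countable_singleton _, fun _ e => e ▸ v2,
      fun w hw => ⟨b, rfl, not_lt.1 fun e => absurd (hm.2 e) (not_le.2 (hw.trans_le v3))⟩⟩ b v2
    exact le_antisymm (not_lt.1 fun e => absurd (hm.2 e) (not_le.2 (u3.trans_le v3))) u2 ▸ u1
  refine Or.inr ⟨⟨?_, fun w hw => ?_⟩, fun c c1 c2 => not_le.1 fun c3 => ?_⟩
  · by_contra hn
    refine ho ?_
    rw [eq_univ_of_forall (s := Iic b) fun w => not_lt.1 fun e => hn ⟨w, e⟩]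
    exact isOpen_univ
  · obtain ⟨t, t1, t2⟩ : ∃ t, b < t ∧ t < (show L from w) := by
      by_contra hn
      refine ho ?_
      rw [show Iic b = Iio (show L from w) from Subset.antisymm (fun t ht => lt_of_le_of_lt ht hw)
        fun t ht => not_lt.1 fun e => hn ⟨t, e, ht⟩]
      exact isOpen_Iio
    obtain ⟨v, v1, v2, v3⟩ := b2 t t1
    exact ⟨v, v1, v3.trans_lt t2, v2⟩
  · by_cases e : LC c
    · obtain ⟨u, u1, u2, u3⟩ := h1 c c1 e x c2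
      exact b1 ⟨u, u1, c, c1, u2, u3, c3⟩
    · obtain ⟨u, u1, u2, u3⟩ := h2 c c1 (iso (L := Lᵒᵈ) (h4 c e)) b
        (lt_of_le_of_ne c3 fun e' => ho (e' ▸ h4 c e))
      exact b1 ⟨c, c1, u, u1, c2.le, u3, u2⟩

theorem den (h4 : ∀ c : L, ¬ LC (K := Lᵒᵈ) c → IsOpen (Ici c)) {x w : L} (hx : ¬ LC x)
    (hw : w < x) : ∃ a, w < a ∧ a ≤ x ∧ LC a ∧ LC (K := Lᵒᵈ) a := by
  have : Nonempty L := ⟨x⟩
  have np : ∀ u < x, ∃ v, u < v ∧ v < x := fun u hu => by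
    by_contra hn
    push Not at hn
    exact hx ⟨{u}, countable_singleton _, fun c hc => hc ▸ hu, fun b hb =>
      ⟨u, rfl, not_lt.1 fun e => absurd hb (not_lt.2 (hn b e))⟩⟩
  choose! nx n1 n2 using np
  let u : ℕ → L := fun n => nx^[n] w
  have u1 : ∀ n, u (n + 1) = nx (u n) := fun n => Function.iterate_succ_apply' _ _ _
  have u2 : ∀ n, u n < x := fun n => by
    induction n with
    | zero => exact hw
    | succ n ih => rw [u1]; exact n2 _ ih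
  obtain ⟨a, ha⟩ := lub (range u)
  have u3 : ∀ n, u n < a := fun n => (u1 n ▸ n1 _ (u2 n)).trans_le (ha.1 ⟨n + 1, rfl⟩)
  refine ⟨a, u3 0, ha.2 (by rintro _ ⟨n, rfl⟩; exact (u2 n).le), ⟨range u, countable_range _,
    by rintro _ ⟨n, rfl⟩; exact u3 n, fun b hb => ?_⟩, ?_⟩
  · obtain ⟨c, c1, c2⟩ := (lt_isLUB_iff ha).1 hb
    exact ⟨c, c1, c2.le⟩
  · by_contra hn
    obtain ⟨_, e, n, rfl⟩ := mem_closure_iff.1 (ha.mem_closure (range_nonempty u)) _ (h4 a hn) le_rfl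
    exact absurd (u3 n) (not_lt.2 e)

theorem T2 (N : Om → Set L) (β : Om → Om) (N1 : ∀ ζ, (N ζ).Countable) (N2 : Monotone N)
    (sp : ∀ p q, p < q → ∃ ζ, Sep (N ζ) p q) (tb : ∀ ζ c, IsTop c ∨ IsBot c → c ∈ N ζ)
    (h4 : ∀ c : L, ¬ LC c → IsOpen (Iic c)) (h5 : ∀ c : L, ¬ LC (K := Lᵒᵈ) c → IsOpen (Ici c))
    (nb : ∀ δ, (∀ ζ < δ, β ζ < δ) → ∀ a b, a < b → (∀ u ∈ VV N δ, a ≤ u → b < u) →
      LL (VV N δ) a → LL (K := Lᵒᵈ) (VV N δ) b → False) :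
    ∃ (Γ : Type) (h : L → (Γ → ℝ)), IsEmbedding h ∧ Dense (h ⁻¹' {x | {γ | x γ ≠ 0}.Countable}) := by
  have sp' : ∀ p q : Lᵒᵈ, p < q → ∃ ζ, Sep (L := Lᵒᵈ) (N ζ) p q := fun p q e =>
    (sp q p e).imp fun _ => sd.2
  choose η hη using eta N2 sp
  choose η' hη' using eta (L := Lᵒᵈ) N2 sp'
  have kap : ∀ u v : L, ∃ ξ, ∀ w, u < w → w < v → ∃ t ∈ N ξ, u < t ∧ t < v := by
    intro u v
    by_cases e : ∃ w, u < w ∧ w < v
    · obtain ⟨w, w1, w2⟩ := e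
      obtain ⟨ξ, s, -, t, a1, a2, a3, a4⟩ := sp u w w1
      exact ⟨ξ, fun _ _ _ => ⟨t, a1, a2.trans_lt a3, a4.trans_lt w2⟩⟩
    · exact ⟨(bdd countable_empty).choose, fun w a b => absurd ⟨w, a, b⟩ e⟩
  choose κ hκ using kap
  choose γ hγ using fun ζ => bdd (((((N1 ζ).image η).union ((N1 ζ).image η')).union
    ((N1 ζ).image2 (N1 ζ) κ)).insert (β ζ))
  let D : Set Om := {δ | ∀ ζ < δ, γ ζ < δ}
  have b2 : ∀ a : Om, ∃ c, a < c := fun a => (bdd (countable_singleton a)).imp fun c h => h a rfl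
  have hD : ∀ ξ, ∃ δ ∈ D, ξ < δ := fun ξ => by
    choose nx hn using fun a : Om => bdd (((Om2 a).image γ).insert a)
    let u : ℕ → Om := fun n => nx^[n] ξ
    have u1 : ∀ n, u (n + 1) = nx (u n) := fun n => Function.iterate_succ_apply' _ _ _
    obtain ⟨δ, hδ⟩ := olub ((bdd (countable_range u)).imp fun b hb a ha => (hb a ha).le)
    refine ⟨δ, fun ζ hζ => ?_, (hn ξ ξ (Or.inl rfl)).trans_le (hδ.1 ⟨1, rfl⟩)⟩
    obtain ⟨_, ⟨n, rfl⟩, e⟩ := (lt_isLUB_iff hδ).1 hζ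
    exact (hn _ _ (Or.inr ⟨ζ, e, rfl⟩)).trans_le (hδ.1 ⟨n + 1, u1 n⟩)
  have W1 : ∀ δ, (VV N δ).Countable := fun δ => (Om2 δ).biUnion fun ζ _ => N1 ζ
  have sq : ∀ p q, p < q → ∃ ζ, Sep (VV N ζ) p q := fun p q e => by
    obtain ⟨ζ, hζ⟩ := sp p q e
    obtain ⟨ξ, hξ⟩ := b2 ζ
    exact ⟨ξ, sm hζ (VVs hξ) le_rfl le_rfl⟩
  obtain ⟨φ, f1, f2, f3⟩ := one W1 (VVm N) hD sq
  obtain ⟨ψ, g1, g2, g3⟩ := one (L := Lᵒᵈ) W1 (VVm N) hD fun p q e => (sq q p e).imp fun _ => sd.2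
  have key : ∀ x y : L, x < y → φ x ≠ φ y ∨ ψ y ≠ ψ x := by
    intro x y hxy
    obtain ⟨ε, ⟨e1, u, a1, v, a2, a3, a4, a5⟩, e2⟩ := (wellFounded_lt (α := Om)).has_min
      {ε ∈ D | Sep (VV N ε) x y} (by
        obtain ⟨ζ, hζ⟩ := sq x y hxy
        obtain ⟨δ, d1, d2⟩ := hD ζ
        exact ⟨δ, d1, sm hζ (VVm N d2.le) le_rfl le_rfl⟩)
    obtain ⟨δ, hδ⟩ := olub (s := D ∩ Iio ε) ⟨ε, fun a ha => ha.2.le⟩
    have d1 : δ ∈ D := fun ζ hζ => by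
      obtain ⟨c, c1, c2⟩ := (lt_isLUB_iff hδ).1 hζ
      exact (c1.1 ζ c2).trans_le (hδ.1 c1)
    have d2 : ¬ Sep (VV N δ) x y := by
      rintro ⟨u, a1, v, a2, a3⟩
      obtain ⟨ζ, z1, z2, z3⟩ := VV2 N2 a1 a2
      obtain ⟨c, c1, c2⟩ := (lt_isLUB_iff hδ).1 z1
      exact e2 c ⟨c1.1, u, VVs c2 z2, v, VVs c2 z3, a3⟩ c1.2
    have d3 : δ < ε := lt_of_le_of_ne (hδ.2 fun a ha => ha.2.le) fun e =>
      d2 (e ▸ ⟨u, a1, v, a2, a3, a4, a5⟩)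
    have h1 : ∀ c ∈ VV N δ, LC c → ∀ w < c, ∃ u ∈ VV N δ, w ≤ u ∧ u < c := fun c hc e w hw => by
      obtain ⟨ζ, z1, z2⟩ := mem_iUnion₂.1 hc
      obtain ⟨u, a1, v, -, a3, a4, a5⟩ := hη c e w hw
      exact ⟨u, VVs ((hγ ζ _ (Or.inr (Or.inl (Or.inl ⟨c, z2, rfl⟩)))).trans (d1 ζ z1)) a1, a3,
        a4.trans_le a5⟩
    have h2 : ∀ c ∈ VV N δ, LC (K := Lᵒᵈ) c → ∀ w, c < w → ∃ u ∈ VV N δ, u ≤ w ∧ c < u :=
      fun c hc e w hw => by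
      obtain ⟨ζ, z1, z2⟩ := mem_iUnion₂.1 hc
      obtain ⟨u, a1, v, -, a3, a4, a5⟩ := hη' c e w hw
      exact ⟨u, VVs ((hγ ζ _ (Or.inr (Or.inl (Or.inr ⟨c, z2, rfl⟩)))).trans (d1 ζ z1)) a1, a3,
        a4.trans_le a5⟩
    have h3 : ∀ u ∈ VV N δ, ∀ v ∈ VV N δ, ∀ w, u < w → w < v → ∃ t ∈ VV N δ, u < t ∧ t < v :=
      fun u hu v hv w w1 w2 => by
      obtain ⟨ζ, z1, z2, z3⟩ := VV2 N2 hu hv
      obtain ⟨t, t1, t2⟩ := hκ u v w w1 w2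
      exact ⟨t, VVs ((hγ ζ _ (Or.inr (Or.inr ⟨u, z2, v, z3, rfl⟩))).trans (d1 ζ z1)) t1, t2⟩
    obtain ⟨b, p1, p2, p3⟩ := side h1 h2 h3 h4 d2
    obtain ⟨a, q1, q2, q3⟩ := side (L := Lᵒᵈ) h2 h1 (fun u hu v hv w w1 w2 =>
      (h3 v hv u hu w w2 w1).imp fun t ht => ⟨ht.1, ht.2.2, ht.2.1⟩) h5 (mt sd.1 d2)
    rcases p3 with p3 | p3
    · exact Or.inl (f3 x y ε u v b a3 a4 a5 p1 p3.1 a1 a2 (p3.2.elim (fun e => VVm N d3.le e)
        fun e => VVs d3 (tb δ b (Or.inl e))) fun c c1 c2 e =>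
          p2 (sm e (VVm N (hδ.1 ⟨c1, c2⟩)) le_rfl le_rfl))
    rcases q3 with q3 | q3
    · exact Or.inr (g3 y x ε v u a a5 a4 a3 q1 q3.1 a2 a1 (q3.2.elim (fun e => VVm N d3.le e)
        fun e => VVs d3 (tb δ a (Or.inr e))) fun c c1 c2 e =>
          q2 (sm e (VVm N (hδ.1 ⟨c1, c2⟩)) le_rfl le_rfl))
    exact (nb δ (fun ζ hζ => (hγ ζ _ (Or.inl rfl)).trans (d1 ζ hζ)) a b
      (lt_of_le_of_lt q1 (hxy.trans_le p1)) (fun c c1 c2 => p3.2 c c1 (not_le.1 fun e =>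
        absurd (q3.2 c c1 (e.trans_lt hxy)) (not_lt.2 c2))) q3.1 p3.1).elim
  have hc : Continuous fun x : L => Sum.elim (φ x) (ψ x) := continuous_pi fun θ => by
    rcases θ with θ | θ
    · exact (continuous_apply θ).comp f1
    · exact (continuous_apply θ).comp g1
  refine ⟨_, _, (hc.isClosedEmbedding fun x y e => ?_).isEmbedding,
    Dense.mono (s₁ := {x : L | LC (K := L) x ∧ LC (K := Lᵒᵈ) x}) (fun x hx => ?_) (dense_iff_inter_open.2 ?_)⟩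
  · have e1 : φ x = φ y := funext fun θ => congrFun e (Sum.inl θ)
    have e2 : ψ x = ψ y := funext fun θ => congrFun e (Sum.inr θ)
    exact le_antisymm (not_lt.1 fun h => (key y x h).elim (· e1.symm) (· e2))
      (not_lt.1 fun h => (key x y h).elim (· e1) (· e2.symm))
  · refine (((f2 x hx.1).image Sum.inl).union ((g2 x hx.2).image Sum.inr)).mono ?_
    rintro (θ | θ) hθ
    · exact Or.inl ⟨θ, hθ, rfl⟩
    · exact Or.inr ⟨θ, hθ, rfl⟩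
  · rintro O hO ⟨x, hx⟩
    by_cases e1 : LC x
    · by_cases e2 : LC (K := Lᵒᵈ) x
      · exact ⟨x, hx, e1, e2⟩
      · obtain ⟨w, w1, w2⟩ := exists_Ico_subset_of_mem_nhds (hO.mem_nhds hx) (by
          by_contra hn
          exact e2 ⟨∅, countable_empty, by simp, fun b hb => absurd ⟨b, hb⟩ hn⟩)
        obtain ⟨a, a1, a2, a3, a4⟩ := den (L := Lᵒᵈ) h4 e2 w1
        exact ⟨a, w2 ⟨a2, a1⟩, a4, a3⟩
    · obtain ⟨w, w1, w2⟩ := exists_Ioc_subset_of_mem_nhds (hO.mem_nhds hx) (by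
        by_contra hn
        exact e1 ⟨∅, countable_empty, by simp, fun b hb => absurd ⟨b, hb⟩ hn⟩)
      obtain ⟨a, a1, a2, a3⟩ := den h5 e1 w1
      exact ⟨a, w2 ⟨a1, a2⟩, a3⟩

end Pool.Agent.H.MP_e33218
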