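import Pool.Agent.H.MP_e33218.B

set_option autoImplicit false
open Set Filter Topology TopologicalSpace

namespace Pool.Agent.H.MP_e33218

open Pool.Agent.H.MP_d2b9e5 (Om Om1 Om2)
open Pool.Agent.H.MP_eb6644

variable {L K : Type} [LinearOrder L] [LinearOrder K] {g : L → K} {lo hi : K → L}

theorem spl (U : K → Prop) : ∃ (L : Type) (_ : LinearOrder L) (g : L → K) (lo hi : K → L),
    (∀ x p, x ≤ hi p ↔ g x ≤ p) ∧ (∀ x p, lo p ≤ x ↔ p ≤ g x) ∧ (∀ p, g (lo p) = p) ∧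
      (∀ p, g (hi p) = p) ∧ (∀ x, x = lo (g x) ∨ x = hi (g x)) ∧ ∀ p, lo p = hi p ↔ ¬ U p := by
  classical
  refine ⟨{x : K ×ₗ Bool // (ofLex x).2 = true → U (ofLex x).1}, inferInstance,
    fun x => (ofLex x.1).1, fun p => ⟨toLex (p, false), by simp⟩,
    fun p => ⟨toLex (p, decide (U p)), by simp⟩, ?_, ?_, fun _ => rfl, fun _ => rfl, ?_, ?_⟩
  · rintro ⟨⟨q, b⟩, hb⟩ p
    refine Prod.Lex.le_iff.trans ⟨fun h => h.elim le_of_lt fun h => h.1.le, fun h =>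
      h.lt_or_eq.imp_right fun e => ⟨e, ?_⟩⟩
    change q = p at e
    subst e
    cases b
    · exact Bool.false_le _
    · exact (decide_eq_true (hb rfl)).ge
  · rintro ⟨⟨q, b⟩, hb⟩ p
    exact Prod.Lex.le_iff.trans ⟨fun h => h.elim le_of_lt fun h => h.1.le, fun h =>
      h.lt_or_eq.imp_right fun e => ⟨e, Bool.false_le _⟩⟩
  · rintro ⟨⟨q, b⟩, hb⟩
    cases b
    · exact Or.inl rfl
    · exact Or.inr (Subtype.ext (Prod.ext rfl (decide_eq_true (hb rfl)).symm))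
  · intro p
    simp [Subtype.ext_iff]

theorem cpt [TopologicalSpace L] [OrderTopology L] (h : ∀ s : Set L, ∃ p, IsLUB s p) :
    CompactSpace L := by
  refine ⟨isCompact_iff_ultrafilter_le_nhds.2 fun F _ => ?_⟩
  obtain ⟨p, hp⟩ := h {x | Ici x ∈ F}
  refine ⟨p, mem_univ _, ?_⟩
  rw [nhds_eq_order]
  refine le_inf (le_iInf₂ fun a ha => le_principal_iff.2 ?_)
    (le_iInf₂ fun b hb => le_principal_iff.2 ?_)
  · obtain ⟨c, c1, c2⟩ := (lt_isLUB_iff hp).1 ha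
    exact mem_of_superset c1 (Ici_subset_Ioi.2 c2)
  · by_contra hn
    exact absurd (hp.1 (show Ici b ∈ F from compl_Iio (a := b) ▸
      Ultrafilter.compl_mem_iff_notMem.2 hn)) (not_le.2 hb)

theorem m0 (a1 : ∀ x p, x ≤ hi p ↔ g x ≤ p) (a2 : ∀ x p, lo p ≤ x ↔ p ≤ g x)
    (a4 : ∀ x, x = lo (g x) ∨ x = hi (g x)) {p : K} {w : L} (h1 : w ≤ hi p) (h2 : w ≠ hi p) :
    w ≤ lo p := by
  rcases ((a1 _ _).1 h1).eq_or_lt with rfl | e
  · exact ((a4 w).resolve_right h2).le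
  · exact (not_le.1 fun h => absurd ((a2 _ _).1 h) (not_le.2 e)).le

theorem m1 [TopologicalSpace L] [OrderTopology L] (a1 : ∀ x p, x ≤ hi p ↔ g x ≤ p)
    (a2 : ∀ x p, lo p ≤ x ↔ p ≤ g x) (a3 : ∀ p, g (hi p) = p)
    (a4 : ∀ x, x = lo (g x) ∨ x = hi (g x)) (a5 : ∀ p, lo p = hi p → LC p) (c : L) (hc : ¬ LC c) :
    IsOpen (Iic c) := by
  by_cases e : c = hi (g c)
  · refine (hc ?_).elim
    by_cases e' : c = lo (g c)
    · obtain ⟨s, s1, s2, s3⟩ := a5 _ (e'.symm.trans e)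
      have k : ∀ w, w < c ↔ g w < g c := fun w => by rw [← not_le, ← not_le, ← a2, ← e']
      refine ⟨hi '' s, s1.image _, ?_, fun b hb => ?_⟩
      · rintro _ ⟨t, ht, rfl⟩
        rw [k, a3]
        exact s2 t ht
      · obtain ⟨t, t1, t2⟩ := s3 _ ((k b).1 hb)
        exact ⟨_, ⟨t, t1, rfl⟩, (a1 _ _).2 t2⟩
    · exact ⟨{lo (g c)}, countable_singleton _, fun _ h => h ▸ lt_of_le_of_ne ((a2 _ _).2 le_rfl)
        (Ne.symm e'), fun b hb => ⟨_, rfl, m0 a1 a2 a4 (e ▸ hb.le) (e ▸ hb.ne)⟩⟩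
  · rw [show Iic c = Iio (hi (g c)) from Subset.antisymm (fun w hw => lt_of_le_of_lt hw
      (lt_of_le_of_ne ((a1 _ _).2 le_rfl) e)) fun w hw =>
        (m0 a1 a2 a4 (le_of_lt hw) (ne_of_lt hw)).trans ((a4 c).resolve_right e).ge]
    exact isOpen_Iio

theorem m2 (a1 : ∀ x p, x ≤ hi p ↔ g x ≤ p) (a2 : ∀ x p, lo p ≤ x ↔ p ≤ g x)
    (a3 : ∀ p, g (hi p) = p) (a4 : ∀ x, x = lo (g x) ∨ x = hi (g x)) {V : Set K} {a : L}
    (ha : LL (g ⁻¹' V) a) : a = lo (g a) ∧ LL V (g a) := by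
  have e : a = lo (g a) := by
    by_contra e
    obtain ⟨u, -, u1, u2⟩ := ha.2 _ (lt_of_le_of_ne ((a2 _ _).2 le_rfl) (Ne.symm e))
    have e' := (a4 a).resolve_left e
    exact absurd (m0 a1 a2 a4 (e' ▸ u2.le) (e' ▸ u2.ne)) (not_le.2 u1)
  have k : ∀ w, w < a ↔ g w < g a := fun w => by rw [← not_le, ← not_le, ← a2, ← e]
  obtain ⟨w, hw⟩ := ha.1
  refine ⟨e, ⟨_, (k w).1 hw⟩, fun w hw => ?_⟩
  obtain ⟨u, u1, u2, u3⟩ := ha.2 (hi w) ((k _).2 ((a3 w).symm ▸ hw))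
  exact ⟨_, u1, not_le.1 fun h => absurd ((a1 _ _).2 h) (not_le.2 u2), (k u).1 u3⟩

theorem m3 {V : Set K} (hV : V.Countable) {a : K} (ha : LL V a) : LC a :=
  ⟨V ∩ Iio a, hV.mono inter_subset_left, fun _ h => h.2, fun b hb =>
    let ⟨u, u1, u2, u3⟩ := ha.2 b hb
    ⟨u, ⟨u1, u3⟩, u2.le⟩⟩

theorem fin {X Γ : Type} [TopologicalSpace X] [CompactSpace X] [TopologicalSpace K]
    [OrderTopology K] [CompactSpace K] [Nonempty K] {h : X → Γ → ℝ} {π : X → K} (hc : Continuous h)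
    (hi : Function.Injective h) (hd : Dense {p | {θ | h p θ ≠ 0}.Countable}) (hπ : Continuous π)
    (hs : Function.Surjective π) :
    ∃ (L : Type) (_ : LinearOrder L) (_ : TopologicalSpace L) (_ : OrderTopology L)
      (_ : CompactSpace L),
      (∃ (Γ : Type) (h : L → (Γ → ℝ)), IsEmbedding h ∧
        Dense (h ⁻¹' {x | {γ | x γ ≠ 0}.Countable})) ∧
      ∃ g : L → K, Continuous g ∧ Function.Surjective g ∧ Monotone g := by
  obtain ⟨N, β, N1, N2, sp, nu, tb, nb⟩ := T1 hc hi hd hπ hs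
  obtain ⟨L, _, g, lo, hi, a1, a2, a3, a3', a4, a5⟩ :=
    spl fun p : K => ¬ LC p ∨ ¬ LC (K := Kᵒᵈ) p
  letI := Preorder.topology L
  have : OrderTopology L := ⟨rfl⟩
  have mo : Monotone g := fun x y e => (a1 _ _).1 (e.trans ((a1 _ _).2 le_rfl))
  have : CompactSpace L := cpt fun s => by
    obtain ⟨p, hp⟩ := lub (g '' s)
    have k : ∀ x ∈ s, x ≤ hi p := fun x hx => (a1 _ _).2 (hp.1 ⟨x, hx, rfl⟩)
    by_cases e : hi p ∈ s
    · exact ⟨hi p, k, fun y hy => hy e⟩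
    · refine ⟨lo p, fun x hx => m0 a1 a2 a4 (k x hx) fun h => e (h ▸ hx), fun y hy =>
        (a2 _ _).2 (hp.2 ?_)⟩
      rintro _ ⟨x, hx, rfl⟩
      exact mo (hy hx)
  have vv : ∀ δ, VV (fun ζ => g ⁻¹' N ζ) δ = g ⁻¹' VV N δ := fun δ => by simp [VV]
  refine ⟨L, inferInstance, inferInstance, inferInstance, inferInstance, T2 (fun ζ => g ⁻¹' N ζ) β
    (fun ζ => (((N1 ζ).image lo).union ((N1 ζ).image hi)).mono fun x hx => (a4 x).imp
      (fun e => ⟨_, hx, e.symm⟩) fun e => ⟨_, hx, e.symm⟩) (fun a b e => preimage_mono (N2 e))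
    (fun x y e => ?_) (fun ζ c hc => tb ζ _ (hc.imp (fun e p => a3 p ▸ mo (e _))
      fun e p => a3 p ▸ mo (e _)))
    (m1 a1 a2 a3' a4 fun p e => not_not.1 fun h => (a5 p).1 e (Or.inl h))
    (m1 (L := Lᵒᵈ) (K := Kᵒᵈ) a2 a1 a3 (fun x => (a4 x).symm)
      fun p e => not_not.1 fun h => (a5 p).1 e.symm (Or.inr h))
    fun δ hδ a b h1 h2 h3 h4 => ?_, g, OrderTopology.continuous_iff.2 fun p => ⟨?_, ?_⟩,
    fun p => ⟨_, a3 p⟩, mo⟩
  · rcases (mo e.le).eq_or_lt with e' | e'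
    · obtain ⟨ζ, hζ⟩ := nu (g x) (not_not.1 fun hn => by
        have e1 := (a5 _).2 hn
        have e2 : x = lo (g x) := (a4 x).elim id fun h => h.trans e1.symm
        have e3 : y = lo (g x) := (a4 y).elim (e' ▸ ·) fun h => (e' ▸ h : y = hi (g x)).trans e1.symm
        exact e.ne (e2.trans e3.symm))
      exact ⟨ζ, x, hζ, y, show g y ∈ N ζ from e' ▸ hζ, le_rfl, e, le_rfl⟩
    · obtain ⟨ζ, u, u1, v, v1, b1, b2, b3⟩ := sp _ _ e'
      exact ⟨ζ, hi u, show g _ ∈ N ζ from (a3' u).symm ▸ u1, lo v,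
        show g _ ∈ N ζ from (a3 v).symm ▸ v1, (a1 _ _).2 b1, not_le.1 fun h =>
          absurd ((a2 _ _).1 h) (not_le.2 ((a3' u).symm ▸ b2)), (a2 _ _).2 b3⟩
  · rw [vv] at h2 h3
    replace h4 : LL (K := Lᵒᵈ) (show Set L from g ⁻¹' VV N δ) b := vv δ ▸ h4
    obtain ⟨e1, e2⟩ := m2 a1 a2 a3' a4 h3
    obtain ⟨e3, e4⟩ := m2 (L := Lᵒᵈ) (K := Kᵒᵈ) a2 a1 a3 (fun x => (a4 x).symm) h4
    have c : (VV N δ).Countable := (Om2 δ).biUnion fun ζ _ => N1 ζ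
    refine nb δ hδ _ _ (lt_of_le_of_ne (mo h1.le) fun e => h1.ne ?_) (fun u u1 u2 =>
      not_le.1 fun u3 => ?_) e2 e4
    · refine e1.trans (((a5 _).2 ?_).trans (e ▸ e3.symm))
      rintro (h | h)
      · exact h (m3 c e2)
      · exact h (e ▸ m3 (K := Kᵒᵈ) c e4)
    · exact absurd (h2 (lo u) (show g _ ∈ VV N δ from (a3 u).symm ▸ u1)
        (e1 ▸ (a2 _ _).2 ((a3 u).symm ▸ u2))) (not_lt.2 ((a2 _ _).2 u3))
  · convert isOpen_Ioi (a := hi p) using 1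
    ext x
    simp only [mem_preimage, mem_Ioi, ← not_le, a1]
  · convert isOpen_Iio (a := lo p) using 1
    ext x
    simp only [mem_preimage, mem_Iio, ← not_le, a2]

end Pool.Agent.H.MP_e33218
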